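import Mathlib
import Pool.Graph.R_seed8.Helper234.MaxLR.Sing

set_option autoImplicit false
open scoped Matrix.Norms.L2Operator

namespace Pool.Agent.KS6_59.LR

open Filter Topology

section gen

variable {F : Type} [NormedAddCommGroup F] [NormedSpace ℂ F]

lemma lim_exists (C : ℕ → F →ₗ[ℂ] F) (hC : ∀ n x, ‖C n x‖ ≤ ‖x‖) (f : F →L[ℂ] ℂ) (x : F) :
    ∃ L : ℂ, ‖L‖ ≤ ‖f‖ * ‖x‖ ∧
      Tendsto (fun n => f (C n x)) (hyperfilter ℕ : Filter ℕ) (𝓝 L) := by
  have hb : ∀ n, f (C n x) ∈ Metric.closedBall (0 : ℂ) (‖f‖ * ‖x‖) := by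
    intro n
    rw [mem_closedBall_zero_iff]
    exact (f.le_opNorm _).trans (mul_le_mul_of_nonneg_left (hC n x) (norm_nonneg _))
  obtain ⟨L, hL1, hL2⟩ := (isCompact_closedBall (0 : ℂ) (‖f‖ * ‖x‖)).ultrafilter_le_nhds'
    ((hyperfilter ℕ).map (fun n => f (C n x)))
    (Ultrafilter.mem_map.2 (Filter.mem_of_superset Filter.univ_mem (fun n _ => hb n)))
  exact ⟨L, mem_closedBall_zero_iff.1 hL1, hL2⟩

/-- the singular part, abstractly -/
theorem singPart_gen (C : ℕ → F →ₗ[ℂ] F) (hC : ∀ n x, ‖C n x‖ ≤ ‖x‖) (K : Set F)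
    (hK1 : ∀ k ∈ K, Tendsto (fun n => ‖C n k‖) atTop (𝓝 0)) (hK2 : ∀ n x, x - C n x ∈ K) :
    ∃ S : (F →L[ℂ] ℂ) →ₗ[ℂ] (F →L[ℂ] ℂ),
      (∀ f, ∀ k ∈ K, S f k = 0) ∧
      (∀ f : F →L[ℂ] ℂ, (∀ k ∈ K, f k = 0) → S f = f) ∧
      ∀ (m : ℕ) (f : Matrix (Fin m) (Fin m) (F →L[ℂ] ℂ)) (d : ℝ),
        (∀ x, ‖(Matrix.of fun k l => f k l x : Matrix (Fin m) (Fin m) ℂ)‖ ≤ d * ‖x‖) →
        ∀ x, ‖(Matrix.of fun k l => S (f k l) x : Matrix (Fin m) (Fin m) ℂ)‖ ≤ d * ‖x‖ := by
  choose Lm hL1 hL2 using lim_exists C hC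
  have hLe : ∀ f x (c : ℂ), Tendsto (fun n => f (C n x)) (hyperfilter ℕ : Filter ℕ) (𝓝 c) →
      Lm f x = c := fun f x c h => tendsto_nhds_unique (hL2 f x) h
  let S1 : (F →L[ℂ] ℂ) → (F →L[ℂ] ℂ) := fun f =>
    LinearMap.mkContinuous
      { toFun := Lm f
        map_add' := fun x y => by
          refine hLe f _ _ ?_
          simp only [map_add]
          exact (hL2 f x).add (hL2 f y)
        map_smul' := fun c x => by
          refine hLe f _ _ ?_
          simp only [map_smul, RingHom.id_apply]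
          exact (hL2 f x).const_smul c } ‖f‖ (hL1 f)
  have hS1 : ∀ f x, S1 f x = Lm f x := fun f x => rfl
  let S2 : (F →L[ℂ] ℂ) →ₗ[ℂ] (F →L[ℂ] ℂ) :=
    { toFun := S1
      map_add' := fun f g => by
        ext1 x
        rw [hS1]
        refine hLe _ _ _ ?_
        exact (hL2 f x).add (hL2 g x)
      map_smul' := fun c f => by
        ext1 x
        rw [hS1]
        refine hLe _ _ _ ?_
        exact (hL2 f x).const_smul c }
  have hT : ∀ f x, Tendsto (fun n => f (C n x)) (hyperfilter ℕ : Filter ℕ) (𝓝 (S2 f x)) := hL2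
  have hyper_le : (hyperfilter ℕ : Filter ℕ) ≤ atTop := by
    rw [← Nat.cofinite_eq_atTop]
    exact hyperfilter_le_cofinite
  refine ⟨S2, ?_, ?_, ?_⟩
  · intro f k hk
    refine tendsto_nhds_unique (hT f k) ?_
    have h1 : Tendsto (fun n => ‖f‖ * ‖C n k‖) (hyperfilter ℕ : Filter ℕ) (𝓝 0) := by
      have := (hK1 k hk).const_mul ‖f‖
      rw [mul_zero] at this
      exact this.mono_left hyper_le
    exact squeeze_zero_norm (fun n => f.le_opNorm _) h1
  · intro f hf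
    ext1 x
    refine tendsto_nhds_unique (hT f x) ?_
    have h1 : ∀ n, f (C n x) = f x := by
      intro n
      have h2 := hf (x - C n x) (hK2 n x)
      rw [map_sub, sub_eq_zero] at h2
      exact h2.symm
    simp only [h1]
    exact tendsto_const_nhds
  · intro m f d hd x
    have h1 : Tendsto (fun n => (Matrix.of fun k l => f k l (C n x) : Matrix (Fin m) (Fin m) ℂ))
        (hyperfilter ℕ : Filter ℕ) (𝓝 (Matrix.of fun k l => S2 (f k l) x)) :=
      tendsto_pi_nhds.2 (fun k => tendsto_pi_nhds.2 (fun l => hT (f k l) x))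
    have h2 := (continuous_norm.tendsto _).comp h1
    refine le_of_tendsto h2 (Eventually.of_forall (fun n => ?_))
    refine (hd (C n x)).trans ?_
    rcases le_or_gt 0 d with h3 | h3
    · exact mul_le_mul_of_nonneg_left (hC n x) h3
    · have h4 := (norm_nonneg _).trans (hd x)
      have h5 : ‖x‖ = 0 := by
        by_contra hc
        have h6 : 0 < ‖x‖ := lt_of_le_of_ne (norm_nonneg x) (Ne.symm hc)
        have h7 := mul_neg_of_neg_of_pos h3 h6
        linarith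
      have h8 : ‖C n x‖ = 0 := le_antisymm ((hC n x).trans h5.le) (norm_nonneg _)
      rw [h5, h8]

end gen

end Pool.Agent.KS6_59.LR
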