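import Mathlib
import Pool.Graph.R_seed8.Helper234.MaxLR.Sing
import Pool.Agent.KS6_59.LR.SepGen

set_option autoImplicit false
open scoped Matrix.Norms.L2Operator

namespace Pool.Agent.KS6_59.LR

open Pool.Agent.Helper234.MaxLR.SingP

/-- The singular part of functionals on a normed space isometrically embedded in `B(ℓ²)` with
range containing the compact operators. -/
theorem singPart_sub {F : Type} [NormedAddCommGroup F] [NormedSpace ℂ F]
    (J : F →ₗᵢ[ℂ] (HH →L[ℂ] HH))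
    (hK : ∀ k : HH →L[ℂ] HH, IsCompactOperator (⇑k) → ∃ x, J x = k) :
    ∃ S : (F →L[ℂ] ℂ) →ₗ[ℂ] (F →L[ℂ] ℂ),
      (∀ f, ∀ k : F, IsCompactOperator (⇑(J k)) → S f k = 0) ∧
      (∀ f : F →L[ℂ] ℂ, (∀ k : F, IsCompactOperator (⇑(J k)) → f k = 0) → S f = f) ∧
      ∀ (m : ℕ) (f : Matrix (Fin m) (Fin m) (F →L[ℂ] ℂ)) (d : ℝ),
        (∀ x, ‖(Matrix.of fun k l => f k l x : Matrix (Fin m) (Fin m) ℂ)‖ ≤ d * ‖x‖) →
        ∀ x, ‖(Matrix.of fun k l => S (f k l) x : Matrix (Fin m) (Fin m) ℂ)‖ ≤ d * ‖x‖ := by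
  have hmem : ∀ n (x : F), ∃ y, J y = cq n (J x) := by
    intro n x
    obtain ⟨z, hz⟩ := hK _ (cq_sub_compact n (J x))
    exact ⟨x - z, by rw [map_sub, hz, sub_sub_cancel]⟩
  choose C0 hC0 using hmem
  let C : ℕ → F →ₗ[ℂ] F := fun n =>
    { toFun := C0 n
      map_add' := fun x y => J.injective (by rw [map_add, hC0, hC0, hC0, map_add, cq_add])
      map_smul' := fun c x => J.injective (by
        rw [RingHom.id_apply, map_smul, hC0, hC0, map_smul, cq_smul]) }
  have hC : ∀ n x, J (C n x) = cq n (J x) := hC0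
  refine singPart_gen C (fun n x => ?_) {k : F | IsCompactOperator (⇑(J k))} (fun k hk => ?_)
    (fun n x => ?_)
  · rw [← J.norm_map, ← J.norm_map x, hC]
    exact cq_norm n (J x)
  · have h1 : ∀ n, ‖C n k‖ = ‖cq n (J k)‖ := fun n => by rw [← J.norm_map, hC]
    simp only [h1]
    exact cq_compact_tendsto (J k) hk
  · show IsCompactOperator (⇑(J (x - C n x)))
    rw [map_sub, hC]
    exact cq_sub_compact n (J x)

end Pool.Agent.KS6_59.LR
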