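import Mathlib
import Pool.Graph.R_seed8.Results.MP_27ef93_an.MaxNotLocallyReflexive

set_option autoImplicit false

namespace Pool.Agent.KS6_59.LR

open Pool.Agent.Results.MP_27ef93_an.MaxNotLocallyReflexive

variable {X A : Type} [NormedAddCommGroup X] [NormedSpace ℂ X] [NormedAddCommGroup A]
  [NormedSpace ℂ A]

section op

variable {H : Type} [NormedAddCommGroup H] [InnerProductSpace ℂ H]

lemma opLE_mono {n : ℕ} {a : Fin n → Fin n → BO H} {c c' : ℝ} (h : OpLE a c) (hc : c ≤ c') :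
    OpLE a c' := by
  refine ⟨h.1.trans hc, fun ξ => (h.2 ξ).trans ?_⟩
  have h1 : c ^ 2 ≤ c' ^ 2 := pow_le_pow_left₀ h.1 hc 2
  exact mul_le_mul_of_nonneg_right h1 (Finset.sum_nonneg fun _ _ => by positivity)

lemma opLE_smul {n : ℕ} {a : Fin n → Fin n → BO H} {c s : ℝ} (h : OpLE a c) (hs : 0 ≤ s) :
    OpLE (fun i j => (s : ℂ) • a i j) (s * c) := by
  refine ⟨mul_nonneg hs h.1, fun ξ => ?_⟩
  have h1 : ∀ i, ‖∑ j, app ((s : ℂ) • a i j) (ξ j)‖ ^ 2 =
      s ^ 2 * ‖∑ j, app (a i j) (ξ j)‖ ^ 2 := fun i => by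
    have h2 : ∑ j, app ((s : ℂ) • a i j) (ξ j) = (s : ℂ) • ∑ j, app (a i j) (ξ j) := by
      rw [Finset.smul_sum]
      rfl
    rw [h2, norm_smul, mul_pow]
    congr 2
    rw [Complex.norm_real, Real.norm_of_nonneg hs]
  simp only [h1]
  rw [← Finset.mul_sum, mul_pow, mul_assoc]
  exact mul_le_mul_of_nonneg_left (h.2 ξ) (by positivity)

end op

lemma maxN_mono {n : ℕ} {x : Fin n → Fin n → X} {c c' : ℝ} (h : maxN X n x c) (hc : c ≤ c') :
    maxN X n x c' :=
  ⟨h.1.trans hc, fun H _ _ _ w hw => opLE_mono (h.2 H w hw) hc⟩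

/-- a linear map with norm at most `s` multiplies the maximal matrix norms by at most `s` -/
lemma maxN_map (S : A →L[ℂ] X) {s : ℝ} (hs : 0 < s) (hS : ‖S‖ ≤ s) {n : ℕ}
    {x : Fin n → Fin n → A} {c : ℝ} (h : maxN A n x c) :
    maxN X n (fun i j => S (x i j)) (s * c) := by
  refine ⟨mul_nonneg hs.le h.1, fun H _ _ _ w hw => ?_⟩
  let w' : A →L[ℂ] BO H := ((s⁻¹ : ℝ) : ℂ) • (w.comp S)
  have hw' : ‖w'‖ ≤ 1 := by
    refine ContinuousLinearMap.opNorm_le_bound _ zero_le_one fun a => ?_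
    have h1 : ‖w' a‖ = s⁻¹ * ‖w (S a)‖ := by
      show ‖((s⁻¹ : ℝ) : ℂ) • w (S a)‖ = _
      rw [norm_smul, Complex.norm_real, Real.norm_of_nonneg (inv_nonneg.2 hs.le)]
    rw [h1, one_mul, inv_mul_le_iff₀ hs]
    calc ‖w (S a)‖ ≤ ‖w‖ * ‖S a‖ := w.le_opNorm _
      _ ≤ 1 * (‖S‖ * ‖a‖) := mul_le_mul hw (S.le_opNorm _) (norm_nonneg _) zero_le_one
      _ ≤ s * ‖a‖ := by rw [one_mul]; exact mul_le_mul_of_nonneg_right hS (norm_nonneg _)
  have h2 := opLE_smul (h.2 H w' hw') hs.le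
  have h3 : (fun i j => (s : ℂ) • w' (x i j)) = fun i j => w (S (x i j)) := by
    funext i j
    show (s : ℂ) • (((s⁻¹ : ℝ) : ℂ) • w (S (x i j))) = _
    rw [smul_smul, ← Complex.ofReal_mul, mul_inv_cancel₀ hs.ne', Complex.ofReal_one, one_smul]
  rwa [h3] at h2

/-- the adjoint -/
noncomputable def adj (T : X →L[ℂ] A) (g : Du A) : Du X :=
  (show A →L[ℂ] ℂ from g).comp T

/-- the adjoint as a linear map -/
noncomputable def adjL (T : X →L[ℂ] A) : Du A →L[ℂ] Du X :=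
  LinearMap.mkContinuous
    { toFun := adj T
      map_add' := fun f g => ContinuousLinearMap.add_comp (show A →L[ℂ] ℂ from f)
        (show A →L[ℂ] ℂ from g) T
      map_smul' := fun c f => ContinuousLinearMap.smul_comp c (show A →L[ℂ] ℂ from f) T }
    ‖T‖ fun g => by
      rw [mul_comm]
      exact ContinuousLinearMap.opNorm_comp_le (show A →L[ℂ] ℂ from g) T

lemma ev_adjL (T : X →L[ℂ] A) (g : Du A) (x : X) : ev (adjL T g) x = ev g (T x) := rfl

lemma dualN_adj (T : X →L[ℂ] A) (hT : ‖T‖ ≤ 1) {m : ℕ} {f : Fin m → Fin m → Du A} {d : ℝ}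
    (h : dualN (maxN A) m f d) : dualN (maxN X) m (fun i j => adjL T (f i j)) d := by
  refine ⟨h.1, fun k y e hy => ?_⟩
  have h1 : maxN A k (fun i j => T (y i j)) e := by
    have h1 := maxN_map T one_pos hT hy
    rwa [one_mul] at h1
  have h2 := h.2 k (fun i j => T (y i j)) e h1
  have e2 : (fun p q : Fin m × Fin k => ev (adjL T (f p.1 q.1)) (y p.2 q.2)) =
      fun p q : Fin m × Fin k => ev (f p.1 q.1) (T (y p.2 q.2)) := by
    funext p q
    exact ev_adjL T _ _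
  show ScLE (fun p q : Fin m × Fin k => ev (adjL T (f p.1 q.1)) (y p.2 q.2)) (d * e)
  rw [e2]
  exact h2

lemma dualN_dualN_adj (T : X →L[ℂ] A) (hT : ‖T‖ ≤ 1) {m : ℕ} {f : Fin m → Fin m → Du (Du X)}
    {d : ℝ} (h : dualN (dualN (maxN X)) m f d) :
    dualN (dualN (maxN A)) m (fun i j => adjL (adjL T) (f i j)) d := by
  refine ⟨h.1, fun k y e hy => ?_⟩
  have h2 := h.2 k (fun i j => adjL T (y i j)) e (dualN_adj T hT hy)
  have e2 : (fun p q : Fin m × Fin k => ev (adjL (adjL T) (f p.1 q.1)) (y p.2 q.2)) =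
      fun p q : Fin m × Fin k => ev (f p.1 q.1) (adjL T (y p.2 q.2)) := by
    funext p q
    exact ev_adjL (adjL T) _ _
  show ScLE (fun p q : Fin m × Fin k => ev (adjL (adjL T) (f p.1 q.1)) (y p.2 q.2)) (d * e)
  rw [e2]
  exact h2

/-- Local reflexivity of `max(A)` passes to `max(X)` if `X` is isomorphic to a complemented
subspace of `A`. -/
lemma transfer (T : X →L[ℂ] A) (S : A →L[ℂ] X) (hST : ∀ x, S (T x) = x) (hT : ‖T‖ ≤ 1) {s : ℝ}
    (hs : 0 < s) (hS : ‖S‖ ≤ s) {lam : ℝ} (h : LocallyReflexive (maxN A) lam) :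
    LocallyReflexive (maxN X) (lam * s) := by
  intro H _ _ _ E _ u hu
  let u' : E →ₗ[ℂ] Du (Du A) := ((adjL (adjL T)) : Du (Du X) →ₗ[ℂ] Du (Du A)).comp u
  have hu' : CBLE (concN E) (dualN (dualN (maxN A))) u' 1 := fun n x c hx =>
    dualN_dualN_adj T hT (hu n x c hx)
  intro S0 T0 ε hε
  classical
  obtain ⟨v, hv1, hv2⟩ := h H E u' hu' S0 (T0.image (adjL S)) ε hε
  refine ⟨(S : A →ₗ[ℂ] X).comp v, fun n x c hx => ?_, fun x hx f hf => ?_⟩
  · have h1 := maxN_map S hs hS (hv1 n x c hx)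
    have e : lam * s * c = s * (lam * c) := by ring
    rw [e]
    exact h1
  · have h1 := hv2 x hx (adjL S f) (Finset.mem_image_of_mem _ hf)
    have h2 : ev (u' x) (adjL S f) = ev (u x) f := by
      show ev (u x) (adjL T (adjL S f)) = ev (u x) f
      congr 1
      apply ContinuousLinearMap.ext
      intro y
      show ev (adjL T (adjL S f)) y = ev f y
      rw [ev_adjL, ev_adjL, hST]
    rw [h2, ev_adjL] at h1
    exact h1

lemma mono {lam lam' : ℝ} (hl : lam ≤ lam') (h : LocallyReflexive (maxN X) lam) :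
    LocallyReflexive (maxN X) lam' := by
  intro H _ _ _ E _ u hu S0 T0 ε hε
  obtain ⟨v, hv1, hv2⟩ := h H E u hu S0 T0 ε hε
  refine ⟨v, fun n x c hx => maxN_mono (hv1 n x c hx) ?_, hv2⟩
  exact mul_le_mul_of_nonneg_right hl hx.1

/-- `max(A)` is not locally reflexive if `A` has a complemented subspace isomorphic to
`B(ℓ²)`. -/
theorem not_locallyReflexive (T : BO (lp (fun _ : ℕ => ℂ) 2) →L[ℂ] A)
    (S : A →L[ℂ] BO (lp (fun _ : ℕ => ℂ) 2)) (hST : ∀ x, S (T x) = x) (lam : ℝ) :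
    ¬ LocallyReflexive (maxN A) lam := by
  intro h
  set t : ℝ := ‖T‖ + 1 with ht
  have ht0 : 0 < t := by positivity
  set s : ℝ := t * ‖S‖ + 1 with hs
  have hs0 : 0 < s := by positivity
  have key := transfer (((t⁻¹ : ℝ) : ℂ) • T) ((t : ℂ) • S) (fun x => ?_) ?_ hs0 ?_ h
  · refine result (max (lam * s) 1) (le_max_right _ _) (mono (le_max_left _ _) key)
  · show (t : ℂ) • S (((t⁻¹ : ℝ) : ℂ) • T x) = x
    rw [map_smul, smul_smul, ← Complex.ofReal_mul, mul_inv_cancel₀ ht0.ne', Complex.ofReal_one,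
      one_smul, hST]
  · rw [norm_smul, Complex.norm_real, Real.norm_of_nonneg (inv_nonneg.2 ht0.le),
      inv_mul_le_iff₀ ht0, mul_one]
    linarith
  · rw [norm_smul, Complex.norm_real, Real.norm_of_nonneg ht0.le]
    linarith

end Pool.Agent.KS6_59.LR
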