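import Mathlib
import Pool.Agent.KS6_59.LR.SepMain
import Pool.Agent.KS6_59.LR.Transfer
import Pool.Graph.R_seed8.Helper234.Calkin.Main

set_option autoImplicit false

namespace Pool.Agent.KS6_59.LR

open Pool.Agent.Results.MP_27ef93_an.MaxNotLocallyReflexive

/-- Local reflexivity is inherited by complemented subspaces, up to the constant. -/
lemma transfer' {F X : Type} [NormedAddCommGroup F] [NormedSpace ℂ F] [NormedAddCommGroup X]
    [NormedSpace ℂ X] (T : F →L[ℂ] X) (S : X →L[ℂ] F) (hST : ∀ x, S (T x) = x) {lam : ℝ}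
    (h : LocallyReflexive (maxN X) lam) : ∃ lam' : ℝ, 1 ≤ lam' ∧ LocallyReflexive (maxN F) lam' := by
  set t : ℝ := ‖T‖ + 1 with ht
  have ht0 : 0 < t := by positivity
  set s : ℝ := t * ‖S‖ + 1 with hs
  have hs0 : 0 < s := by positivity
  have key := transfer (((t⁻¹ : ℝ) : ℂ) • T) ((t : ℂ) • S) (fun x => ?_) ?_ hs0 ?_ h
  · exact ⟨max (lam * s) 1, le_max_right _ _, mono (le_max_left _ _) key⟩
  · show (t : ℂ) • S (((t⁻¹ : ℝ) : ℂ) • T x) = x
    rw [map_smul, smul_smul, ← Complex.ofReal_mul, mul_inv_cancel₀ ht0.ne', Complex.ofReal_one,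
      one_smul, hST]
  · rw [norm_smul, Complex.norm_real, Real.norm_of_nonneg (inv_nonneg.2 ht0.le),
      inv_mul_le_iff₀ ht0, mul_one]
    linarith
  · rw [norm_smul, Complex.norm_real, Real.norm_of_nonneg ht0.le]
    linarith

/-- There is a countable set `G` of operators on `ℓ²` such that `max(X)` is not `lam`-locally
reflexive for any `lam` whenever `X` contains a complemented copy of a subspace of `B(ℓ²)`
containing `G` and the compact operators. -/
theorem all_level : ∃ G : Set (lp (fun _ : ℕ => ℂ) 2 →L[ℂ] lp (fun _ : ℕ => ℂ) 2), G.Countable ∧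
    ∀ (F : Type) [NormedAddCommGroup F] [NormedSpace ℂ F]
      (J : F →ₗᵢ[ℂ] (lp (fun _ : ℕ => ℂ) 2 →L[ℂ] lp (fun _ : ℕ => ℂ) 2)),
      G ⊆ Set.range J →
      (∀ k : lp (fun _ : ℕ => ℂ) 2 →L[ℂ] lp (fun _ : ℕ => ℂ) 2, IsCompactOperator (⇑k) →
        k ∈ Set.range J) →
      ∀ (X : Type) [NormedAddCommGroup X] [NormedSpace ℂ X] (T : F →L[ℂ] X) (S : X →L[ℂ] F),
        (∀ x, S (T x) = x) → ∀ lam : ℝ, ¬ LocallyReflexive (maxN X) lam := by
  classical
  choose G hG1 hG2 using fun n : ℕ => sep_level ((n : ℝ) + 1) (by positivity)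
  refine ⟨⋃ n, G n, Set.countable_iUnion hG1, ?_⟩
  intro F _ _ J hGJ hKJ X _ _ T S hST lam h
  obtain ⟨lam', hl, h'⟩ := transfer' T S hST h
  obtain ⟨n, hn⟩ := exists_nat_gt lam'
  have h2 : LocallyReflexive (maxN F) ((n : ℝ) + 1) := mono (by linarith) h'
  exact hG2 n F J (fun a ha => hGJ (Set.mem_iUnion.2 ⟨n, ha⟩)) (fun k hk => hKJ k hk) h2

/-- A separable C*-algebra `A` such that `max(A)` is not `lam`-locally reflexive for any `lam`. -/
theorem sep_cstar : ∃ (A : Type) (_ : NonUnitalCStarAlgebra A),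
    TopologicalSpace.SeparableSpace A ∧ ∀ lam : ℝ, ¬ LocallyReflexive (maxN A) lam := by
  obtain ⟨G, hG, h⟩ := all_level
  obtain ⟨S, hS1, hS2, hS3⟩ := Pool.Agent.Helper234.Calkin.exists_separable_alg
    (G ∪ {k : Pool.Agent.Helper234.Calkin.BH | IsCompactOperator (⇑k)})
    (hG.isSeparable.union Pool.Agent.Helper234.Calkin.compact_isSeparable)
  have : IsClosed (S : Set Pool.Agent.Helper234.Calkin.BH) := hS1
  let i1 : NonUnitalCStarAlgebra S := NonUnitalStarSubalgebra.nonUnitalCStarAlgebra S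
  have i2 : TopologicalSpace.SeparableSpace S := hS3.separableSpace
  let J : S →ₗᵢ[ℂ] Pool.Agent.Helper234.Calkin.BH :=
    { toLinearMap := S.toSubmodule.subtype
      norm_map' := fun x => rfl }
  refine ⟨S, i1, i2, fun lam => ?_⟩
  exact h S J (fun a ha => ⟨⟨a, hS2 (Or.inl ha)⟩, rfl⟩) (fun k hk => ⟨⟨k, hS2 (Or.inr hk)⟩, rfl⟩)
    S (ContinuousLinearMap.id ℂ S) (ContinuousLinearMap.id ℂ S) (fun x => rfl) lam

end Pool.Agent.KS6_59.LR
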