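import Mathlib
import Pool.Agent.KS6_59.LR.All
import Pool.Graph.R_seed8.Results.MP_27ef93_an.NoCalkinLifting

set_option autoImplicit false

namespace Pool.Agent.KS6_59.LR

open Pool.Agent.Results.MP_27ef93_an.MaxNotLocallyReflexive

/-- `ℓ²(ℕ)` -/
noncomputable abbrev L2 : Type := lp (fun _ : ℕ => ℂ) 2

section

variable {E : Type} [NormedAddCommGroup E] [NormedSpace ℂ E]

/-- `a ↦ J a Q` -/
noncomputable def emb (J : L2 →L[ℂ] E) (Q : E →L[ℂ] L2) : (L2 →L[ℂ] L2) →L[ℂ] (E →L[ℂ] E) :=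
  LinearMap.mkContinuous
    { toFun := fun a => J.comp (a.comp Q)
      map_add' := fun a b => by
        ext x
        simp
      map_smul' := fun c a => by
        ext x
        simp } (‖J‖ * ‖Q‖) fun a => by
          calc ‖J.comp (a.comp Q)‖ ≤ ‖J‖ * ‖a.comp Q‖ := ContinuousLinearMap.opNorm_comp_le _ _
            _ ≤ ‖J‖ * (‖a‖ * ‖Q‖) := by gcongr; exact ContinuousLinearMap.opNorm_comp_le _ _
            _ = _ := by ring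

/-- `b ↦ Q b J` -/
noncomputable def prj (J : L2 →L[ℂ] E) (Q : E →L[ℂ] L2) : (E →L[ℂ] E) →L[ℂ] (L2 →L[ℂ] L2) :=
  LinearMap.mkContinuous
    { toFun := fun b => Q.comp (b.comp J)
      map_add' := fun a b => by
        ext x
        simp
      map_smul' := fun c a => by
        ext x
        simp } (‖Q‖ * ‖J‖) fun a => by
          calc ‖Q.comp (a.comp J)‖ ≤ ‖Q‖ * ‖a.comp J‖ := ContinuousLinearMap.opNorm_comp_le _ _
            _ ≤ ‖Q‖ * (‖a‖ * ‖J‖) := by gcongr; exact ContinuousLinearMap.opNorm_comp_le _ _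
            _ = _ := by ring

lemma emb_apply (J : L2 →L[ℂ] E) (Q : E →L[ℂ] L2) (a : L2 →L[ℂ] L2) (x : E) :
    emb J Q a x = J (a (Q x)) := rfl

lemma prj_apply (J : L2 →L[ℂ] E) (Q : E →L[ℂ] L2) (b : E →L[ℂ] E) (x : L2) :
    prj J Q b x = Q (b (J x)) := rfl

lemma prj_emb (J : L2 →L[ℂ] E) (Q : E →L[ℂ] L2) (hJQ : ∀ x, Q (J x) = x) (a : L2 →L[ℂ] L2) :
    prj J Q (emb J Q a) = a := by
  ext1 x
  rw [prj_apply, emb_apply, hJQ, hJQ]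

lemma emb_norm (J : L2 →L[ℂ] E) (Q : E →L[ℂ] L2) (a : L2 →L[ℂ] L2) :
    ‖emb J Q a‖ ≤ ‖J‖ * ‖Q‖ * ‖a‖ := by
  calc ‖J.comp (a.comp Q)‖ ≤ ‖J‖ * ‖a.comp Q‖ := ContinuousLinearMap.opNorm_comp_le _ _
    _ ≤ ‖J‖ * (‖a‖ * ‖Q‖) := by gcongr; exact ContinuousLinearMap.opNorm_comp_le _ _
    _ = _ := by ring

/-- `max(B(E))` is not `lam`-locally reflexive if `E` contains a complemented copy of `ℓ²`. -/
theorem not_lr_BE (J : L2 →L[ℂ] E) (Q : E →L[ℂ] L2) (hJQ : ∀ x, Q (J x) = x) (lam : ℝ) :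
    ¬ LocallyReflexive (maxN (E →L[ℂ] E)) lam := by
  obtain ⟨G, _, h⟩ := all_level
  exact h (L2 →L[ℂ] L2) LinearIsometry.id (fun a _ => ⟨a, rfl⟩) (fun a _ => ⟨a, rfl⟩) _
    (emb J Q) (prj J Q) (prj_emb J Q hJQ) lam

end

/-- The compact operators on the Banach space `E`. -/
noncomputable def Komp (E : Type) [NormedAddCommGroup E] [NormedSpace ℂ E] :
    Submodule ℂ (E →L[ℂ] E) :=
  compactOperator (RingHom.id ℂ) E E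

section

variable {E : Type} [NormedAddCommGroup E] [NormedSpace ℂ E]
variable {X : Type} [NormedAddCommGroup X] [NormedSpace ℂ X]

/-- The linear map `u : X → B(E)/K(E)` is bounded by `C`. -/
def BddBy (u : X →ₗ[ℂ] (E →L[ℂ] E) ⧸ Komp E) (C : ℝ) : Prop := ∀ x, ‖u x‖ ≤ C * ‖x‖

/-- The linear map `u : X → B(E)/K(E)` has a linear lifting `X → B(E)` bounded by `C`. -/
def HasLift (u : X →ₗ[ℂ] (E →L[ℂ] E) ⧸ Komp E) (C : ℝ) : Prop :=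
  ∃ v : X →ₗ[ℂ] (E →L[ℂ] E), (∀ x, (Komp E).mkQ (v x) = u x) ∧ ∀ x, ‖v x‖ ≤ C * ‖x‖

lemma emb_compact (J : L2 →L[ℂ] E) (Q : E →L[ℂ] L2) (a : L2 →L[ℂ] L2)
    (ha : IsCompactOperator (⇑a)) : IsCompactOperator (⇑(emb J Q a)) :=
  (ha.comp_clm Q).clm_comp J

lemma prj_compact (J : L2 →L[ℂ] E) (Q : E →L[ℂ] L2) (b : E →L[ℂ] E)
    (hb : IsCompactOperator (⇑b)) : IsCompactOperator (⇑(prj J Q b)) :=
  (hb.comp_clm J).clm_comp Q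

open Pool.Agent.Results.MP_27ef93_an.NoCalkinLifting in
theorem transfer_lift_aux (T : (L2 →L[ℂ] L2) →L[ℂ] (E →L[ℂ] E))
    (S : (E →L[ℂ] E) →L[ℂ] (L2 →L[ℂ] L2)) (hST : ∀ a, S (T a) = a) (hT : ∀ a, ‖T a‖ ≤ ‖a‖)
    (hTc : ∀ a : L2 →L[ℂ] L2, IsCompactOperator (⇑a) → IsCompactOperator (⇑(T a)))
    (hSc : ∀ b : E →L[ℂ] E, IsCompactOperator (⇑b) → IsCompactOperator (⇑(S b)))
    (u : X →ₗ[ℂ] (L2 →L[ℂ] L2) ⧸ Kom L2) (hu : BoundedBy u 1)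
    (hno : ∀ C : ℝ, ¬ HasLiftingOfNormLE u C) :
    ∃ u' : X →ₗ[ℂ] (E →L[ℂ] E) ⧸ Komp E, BddBy u' 1 ∧ ∀ C : ℝ, ¬ HasLift u' C := by
  have hle1 : Kom L2 ≤ (Komp E).comap (T : (L2 →L[ℂ] L2) →ₗ[ℂ] (E →L[ℂ] E)) :=
    fun a ha => hTc a ha
  have hle2 : Komp E ≤ (Kom L2).comap (S : (E →L[ℂ] E) →ₗ[ℂ] (L2 →L[ℂ] L2)) :=
    fun a ha => hSc a ha
  let I : ((L2 →L[ℂ] L2) ⧸ Kom L2) →ₗ[ℂ] ((E →L[ℂ] E) ⧸ Komp E) :=
    Submodule.mapQ _ _ (T : (L2 →L[ℂ] L2) →ₗ[ℂ] (E →L[ℂ] E)) hle1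
  let P : ((E →L[ℂ] E) ⧸ Komp E) →ₗ[ℂ] ((L2 →L[ℂ] L2) ⧸ Kom L2) :=
    Submodule.mapQ _ _ (S : (E →L[ℂ] E) →ₗ[ℂ] (L2 →L[ℂ] L2)) hle2
  have hPI : ∀ y, P (I y) = y := by
    intro y
    obtain ⟨a, rfl⟩ := Submodule.mkQ_surjective _ y
    show (Kom L2).mkQ (S (T a)) = (Kom L2).mkQ a
    rw [hST]
  have hI : ∀ y, ‖I y‖ ≤ ‖y‖ := by
    intro y
    refine le_of_forall_pos_le_add fun ε hε => ?_
    obtain ⟨a, ha, ha2⟩ := Submodule.Quotient.norm_mk_lt y hε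
    have h1 : I y = (Komp E).mkQ (T a) := by
      rw [← ha]
      rfl
    rw [h1]
    have h2 : ‖(Komp E).mkQ (T a)‖ ≤ ‖T a‖ := Submodule.Quotient.norm_mk_le _ _
    exact h2.trans ((hT a).trans ha2.le)
  refine ⟨I.comp u, fun x => ?_, fun C hC => ?_⟩
  · exact (hI _).trans (hu x)
  · obtain ⟨v, hv1, hv2⟩ := hC
    refine hno (‖S‖ * C) ⟨(S : (E →L[ℂ] E) →ₗ[ℂ] (L2 →L[ℂ] L2)).comp v, fun x => ?_, fun x => ?_⟩
    · have h1 : (Kom L2).mkQ (((S : (E →L[ℂ] E) →ₗ[ℂ] (L2 →L[ℂ] L2)).comp v) x) =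
          P ((Komp E).mkQ (v x)) := rfl
      rw [h1, hv1]
      exact hPI _
    · have h1 : ‖S (v x)‖ ≤ ‖S‖ * ‖v x‖ := S.le_opNorm _
      calc ‖S (v x)‖ ≤ ‖S‖ * (C * ‖x‖) := by
            refine h1.trans ?_
            exact mul_le_mul_of_nonneg_left (hv2 x) (norm_nonneg S)
        _ = _ := by ring

open Pool.Agent.Results.MP_27ef93_an.NoCalkinLifting in
/-- a contraction into the Calkin algebra without bounded liftings gives one into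
`B(E)/K(E)` -/
theorem transfer_lift (J : L2 →L[ℂ] E) (Q : E →L[ℂ] L2)
    (hJQ : ∀ x, Q (J x) = x) (u : X →ₗ[ℂ] (L2 →L[ℂ] L2) ⧸ Kom L2) (hu : BoundedBy u 1)
    (hno : ∀ C : ℝ, ¬ HasLiftingOfNormLE u C) :
    ∃ u' : X →ₗ[ℂ] (E →L[ℂ] E) ⧸ Komp E, BddBy u' 1 ∧ ∀ C : ℝ, ¬ HasLift u' C := by
  set s : ℝ := ‖J‖ * ‖Q‖ + 1 with hs
  have hs0 : 0 < s := by positivity
  refine transfer_lift_aux (((s⁻¹ : ℝ) : ℂ) • emb J Q) ((s : ℂ) • prj J Q) (fun a => ?_)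
    (fun a => ?_) (fun a ha => ?_) (fun b hb => ?_) u hu hno
  · show (s : ℂ) • prj J Q (((s⁻¹ : ℝ) : ℂ) • emb J Q a) = a
    rw [map_smul, smul_smul, ← Complex.ofReal_mul, mul_inv_cancel₀ hs0.ne', Complex.ofReal_one,
      one_smul, prj_emb J Q hJQ]
  · show ‖((s⁻¹ : ℝ) : ℂ) • emb J Q a‖ ≤ ‖a‖
    rw [norm_smul, Complex.norm_real, Real.norm_of_nonneg (inv_nonneg.2 hs0.le),
      inv_mul_le_iff₀ hs0]
    refine (emb_norm J Q a).trans (mul_le_mul_of_nonneg_right ?_ (norm_nonneg _))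
    rw [hs]
    linarith
  · exact (emb_compact J Q a ha).smul ((s⁻¹ : ℝ) : ℂ)
  · exact (prj_compact J Q b hb).smul (s : ℂ)

end

end Pool.Agent.KS6_59.LR
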