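import Mathlib

set_option autoImplicit false

namespace Pool.Agent.KS6_59.LR

/-- an infinite-dimensional Hilbert space contains an infinite orthonormal sequence -/
lemma exists_orthonormal_seq (H : Type) [NormedAddCommGroup H] [InnerProductSpace ℂ H]
    [CompleteSpace H] (hH : ¬ FiniteDimensional ℂ H) : ∃ v : ℕ → H, Orthonormal ℂ v := by
  obtain ⟨w, b, hb⟩ := exists_hilbertBasis ℂ H
  have hinf : Infinite w := by
    by_contra hfin
    rw [not_infinite_iff_finite] at hfin
    have h1 := b.dense_span
    have h2 : FiniteDimensional ℂ (Submodule.span ℂ (Set.range b)) :=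
      FiniteDimensional.span_of_finite ℂ (Set.finite_range b)
    have h3 : (Submodule.span ℂ (Set.range b)).topologicalClosure =
        Submodule.span ℂ (Set.range b) :=
      (Submodule.closed_of_finiteDimensional _).submodule_topologicalClosure_eq
    rw [h3] at h1
    rw [h1] at h2
    exact hH (Module.finite_def.2 (Module.Finite.iff_fg.1 h2))
  exact ⟨fun n => b (Infinite.natEmbedding w n),
    b.orthonormal.comp _ (Infinite.natEmbedding w).injective⟩

/-- an infinite-dimensional Hilbert space contains a complemented copy of `ℓ²` -/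
theorem hilbert_compl (H : Type) [NormedAddCommGroup H] [InnerProductSpace ℂ H]
    [CompleteSpace H] (hH : ¬ FiniteDimensional ℂ H) :
    ∃ (J : lp (fun _ : ℕ => ℂ) 2 →L[ℂ] H) (Q : H →L[ℂ] lp (fun _ : ℕ => ℂ) 2),
      ∀ x, Q (J x) = x := by
  obtain ⟨v, hv⟩ := exists_orthonormal_seq H hH
  let V : lp (fun _ : ℕ => ℂ) 2 →ₗᵢ[ℂ] H := hv.orthogonalFamily.linearIsometry
  refine ⟨V.toContinuousLinearMap, ContinuousLinearMap.adjoint V.toContinuousLinearMap,
    fun x => ?_⟩
  refine ext_inner_right ℂ fun y => ?_
  rw [ContinuousLinearMap.adjoint_inner_left]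
  exact V.inner_map_map x y

end Pool.Agent.KS6_59.LR
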